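import Pool.Agent.Helper99.LZ.Quad

/-!
# Packet MT-DEC: decomposition of `Quad` into rows
-/

set_option autoImplicit false

open Finset

namespace Pool.Agent.Helper41.LZ

open Pool.Agent.Helper99.LZ

/-- telescoping over an integer interval -/
theorem tele (f : ℤ → ℝ) (a : ℤ) : ∀ k, a - 1 ≤ k →
    ∑ j ∈ Icc a k, (f j - f (j - 1)) = f k - f (a - 1) := by
  intro k hk
  induction k, hk using Int.le_induction with
  | base =>
    rw [Finset.Icc_eq_empty (by omega)]
    simp
  | succ k hk ih =>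
    have h : Icc a (k + 1) = insert (k + 1) (Icc a k) := by
      ext x
      simp only [mem_Icc, mem_insert]
      omega
    rw [h, Finset.sum_insert (by simp), ih]
    rw [show k + 1 - 1 = k by ring]
    ring

/-- a cumulative function is the sum of its increments -/
theorem cumul (f : ℤ → ℝ) (a b : ℤ) (hab : a ≤ b) (lo : ∀ k < a, f k = 0)
    (hi : ∀ k ≥ b, f k = f b) (p : ℤ) :
    ∑ j ∈ Icc a b, (if j ≤ p then f j - f (j - 1) else 0) = f p := by
  rw [← Finset.sum_filter]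
  have hfil : (Icc a b).filter (fun j => j ≤ p) = Icc a (min p b) := by
    ext x
    simp only [mem_filter, mem_Icc]
    omega
  rw [hfil]
  by_cases h1 : a - 1 ≤ min p b
  · rw [tele f a _ h1, lo (a - 1) (by omega), sub_zero]
    rcases le_total p b with h | h
    · rw [min_eq_left h]
    · rw [min_eq_right h]
      exact (hi p h).symm
  · rw [Finset.Icc_eq_empty (by omega), Finset.sum_empty, lo p (by omega)]

section
variable {T₂ : Pr} {a₂ b₂ : ℤ} {m₂ : ℤ → ℤ → ℝ}

theorem exP (hr : T₂.Reg a₂ b₂) (hc : Cpl T₂ a₂ b₂ m₂) (p : ℤ) :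
    ∑ j ∈ Icc a₂ b₂, ∑ j' ∈ Icc a₂ b₂, m₂ j j' * (if j ≤ p then (1 : ℝ) else 0) = T₂.P p := by
  rw [← cumul T₂.P a₂ b₂ hr.ab.le (fun k hk => (hr.lo k hk).1) (fun k hk => (hr.hi k hk).1) p]
  apply Finset.sum_congr rfl
  intro j _
  rw [← Finset.sum_mul, hc.row j]
  split_ifs
  · rw [mul_one]
    rfl
  · rw [mul_zero]

theorem exQ (hr : T₂.Reg a₂ b₂) (hc : Cpl T₂ a₂ b₂ m₂) (q : ℤ) :
    ∑ j ∈ Icc a₂ b₂, ∑ j' ∈ Icc a₂ b₂, m₂ j j' * (if j' ≤ q then (1 : ℝ) else 0) = T₂.Q q := by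
  rw [← cumul T₂.Q a₂ b₂ hr.ab.le (fun k hk => (hr.lo k hk).2)
    (fun k hk => by rw [(hr.hi k hk).2, (hr.hi b₂ le_rfl).2]) q]
  rw [Finset.sum_comm]
  apply Finset.sum_congr rfl
  intro j _
  rw [← Finset.sum_mul, hc.col j]
  split_ifs
  · rw [mul_one]
    rfl
  · rw [mul_zero]

theorem exH (hr : T₂.Reg a₂ b₂) (hc : Cpl T₂ a₂ b₂ m₂) (p q : ℤ) :
    ∑ j ∈ Icc a₂ b₂, ∑ j' ∈ Icc a₂ b₂, m₂ j j' * (Pr.unit j j').H p q = T₂.H p q := by
  unfold Pr.H Pr.unit
  simp only [mul_sub, Finset.sum_sub_distrib]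
  rw [exP hr hc p, exQ hr hc q]

/-- the mass of the pieces over `q` -/
theorem exhp (hr : T₂.Reg a₂ b₂) (hc : Cpl T₂ a₂ b₂ m₂) (q : ℤ) :
    ∑ j ∈ Icc a₂ b₂, ∑ j' ∈ Icc a₂ b₂, m₂ j j' * (Pr.unit j j').hp q = T₂.hp q := by
  -- hp of the unit is h plus the indicator of the instant
  have hpt : ∀ j j' : ℤ, m₂ j j' * (Pr.unit j j').hp q
      = m₂ j j' * (Pr.unit j j').H (q - 1) q + (if j = q then (if j' = q then m₂ j j' else 0) else 0) := by
    intro j j'
    by_cases h0 : m₂ j j' = 0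
    · simp [h0]
    · have hs := hc.supp j j' h0
      unfold Pr.hp Pr.h Pr.H Pr.unit
      simp only
      by_cases h1 : j ≤ q - 1
      · by_cases h2 : j' ≤ q
        · rw [if_pos h1, if_pos h2, if_neg (by omega : ¬ j = q)]
          simp
        · rw [if_pos h1, if_neg h2, if_neg (by omega : ¬ j = q)]
          simp
      · by_cases h2 : j' ≤ q
        · have hj : j = q := by omega
          have hj' : j' = q := by omega
          rw [if_neg h1, if_pos h2, if_pos hj, if_pos hj']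
          simp
        · rw [if_neg h1, if_neg h2]
          have : ¬ j' = q := by omega
          rw [if_neg this]
          simp
  simp only [hpt, Finset.sum_add_distrib]
  rw [exH hr hc (q - 1) q]
  have hinst : ∑ j ∈ Icc a₂ b₂, ∑ j' ∈ Icc a₂ b₂,
      (if j = q then (if j' = q then m₂ j j' else 0) else 0) = m₂ q q := by
    by_cases hq : q ∈ Icc a₂ b₂
    · rw [Finset.sum_eq_single q]
      · rw [Finset.sum_eq_single q]
        · simp
        · intro j' _ hne
          simp [hne]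
        · intro h
          exact absurd hq h
      · intro j _ hne
        simp [hne]
      · intro h
        exact absurd hq h
    · have h0 : m₂ q q = 0 := by
        by_contra hne
        have hs := hc.supp q q hne
        apply hq
        rw [mem_Icc]
        exact ⟨hs.1, hs.2.2⟩
      rw [h0]
      apply Finset.sum_eq_zero
      intro j hj
      apply Finset.sum_eq_zero
      intro j' _
      by_cases h : j = q
      · exact absurd (h ▸ hj) hq
      · simp [h]
  rw [hinst, hc.inst q]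
  unfold Pr.al Pr.hp Pr.h
  rcases le_total 0 (T₂.H (q - 1) q) with h | h
  · rw [max_eq_left (by linarith), max_eq_right h]
    ring
  · rw [max_eq_right (by linarith), max_eq_left h]
    ring

/-- the entry `(W, W)` -/
theorem exg (hr : T₂.Reg a₂ b₂) (hc : Cpl T₂ a₂ b₂ m₂) (p q : ℤ) :
    ∑ j ∈ Icc a₂ b₂, ∑ j' ∈ Icc a₂ b₂, m₂ j j' * gg (Pr.unit j j') (Pr.unit j j').hp p q
      = gg T₂ T₂.hp p q := by
  unfold gg
  split_ifs
  · exact exH hr hc p q
  · exact exhp hr hc q

theorem pull (c : ℝ) (f : ℤ → ℤ → ℝ) :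
    ∑ j ∈ Icc a₂ b₂, ∑ j' ∈ Icc a₂ b₂, m₂ j j' * (c * f j j')
      = c * ∑ j ∈ Icc a₂ b₂, ∑ j' ∈ Icc a₂ b₂, m₂ j j' * f j j' := by
  rw [Finset.mul_sum]
  apply Finset.sum_congr rfl
  intro j _
  rw [Finset.mul_sum]
  apply Finset.sum_congr rfl
  intro j' _
  ring

/-- the window form is the mean of the window forms of the pieces -/
theorem exW (hr : T₂.Reg a₂ b₂) (hc : Cpl T₂ a₂ b₂ m₂) (p q : ℤ) (x y w x' y' w' : ℝ) :
    ∑ j ∈ Icc a₂ b₂, ∑ j' ∈ Icc a₂ b₂, m₂ j j' *
      (Pr.unit j j').W3 p q (gg (Pr.unit j j') (Pr.unit j j').hp p q) x y w x' y' w'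
      = T₂.W3 p q (gg T₂ T₂.hp p q) x y w x' y' w' := by
  unfold Pr.W3
  simp only [mul_add, Finset.sum_add_distrib]
  have e1 := exH hr hc (p + 2) q
  have e2 := exH hr hc (p + 1) (q - 1)
  have e3 := exH hr hc p (q - 2)
  have e4 := exH hr hc (p + 1) q
  have e5 := exH hr hc p (q - 1)
  have e6 := exg hr hc p q
  rw [pull (x * x') (fun j j' => (Pr.unit j j').H (p + 2) q),
    pull (x * y' + y * x') (fun j j' => (Pr.unit j j').H (p + 1) (q - 1)),
    pull (y * y') (fun j j' => (Pr.unit j j').H p (q - 2)),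
    pull (x * w' + w * x') (fun j j' => (Pr.unit j j').H (p + 1) q),
    pull (y * w' + w * y') (fun j j' => (Pr.unit j j').H p (q - 1)),
    pull (w * w') (fun j j' => gg (Pr.unit j j') (Pr.unit j j').hp p q), e1, e2, e3, e4, e5, e6]

end

/-- the packet DEC -/
theorem dec : StmtDEC := by
  intro T₂ a₂ b₂ m₂ G n a b m ζ xN xI nN nI hr hc hm ho
  have hswap : ∑ j ∈ Icc a₂ b₂, ∑ j' ∈ Icc a₂ b₂, m₂ j j' * rowQ n a b m ζ xN xI nN nI j j'
      = ∑ i ∈ Icc a b, ∑ i' ∈ Icc a b, m i i' *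
        T₂.W3 (n - 2 - i) (n - i') (gg T₂ T₂.hp (n - 2 - i) (n - i'))
          (-xc xN xI i i') (nc nN nI i i') (oc ζ xN xI nN nI i i')
          (-xc xN xI i i') (nc nN nI i i') (oc ζ xN xI nN nI i i') := by
    have h1 : ∀ j j' : ℤ, m₂ j j' * rowQ n a b m ζ xN xI nN nI j j' =
        ∑ i ∈ Icc a b, ∑ i' ∈ Icc a b, m i i' * (m₂ j j' *
          (Pr.unit j j').W3 (n - 2 - i) (n - i')
            (gg (Pr.unit j j') (Pr.unit j j').hp (n - 2 - i) (n - i'))
            (-xc xN xI i i') (nc nN nI i i') (oc ζ xN xI nN nI i i')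
            (-xc xN xI i i') (nc nN nI i i') (oc ζ xN xI nN nI i i')) := by
      intro j j'
      unfold rowQ Quad
      rw [Finset.mul_sum]
      apply Finset.sum_congr rfl
      intro i _
      rw [Finset.mul_sum]
      apply Finset.sum_congr rfl
      intro i' _
      ring
    simp only [h1]
    -- exchange the sums
    have h2 : ∀ g : ℤ → ℤ → ℤ → ℤ → ℝ,
        ∑ j ∈ Icc a₂ b₂, ∑ j' ∈ Icc a₂ b₂, ∑ i ∈ Icc a b, ∑ i' ∈ Icc a b, g j j' i i'
        = ∑ i ∈ Icc a b, ∑ i' ∈ Icc a b, ∑ j ∈ Icc a₂ b₂, ∑ j' ∈ Icc a₂ b₂, g j j' i i' := by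
      intro g
      calc ∑ j ∈ Icc a₂ b₂, ∑ j' ∈ Icc a₂ b₂, ∑ i ∈ Icc a b, ∑ i' ∈ Icc a b, g j j' i i'
          = ∑ j ∈ Icc a₂ b₂, ∑ i ∈ Icc a b, ∑ j' ∈ Icc a₂ b₂, ∑ i' ∈ Icc a b, g j j' i i' := by
            apply Finset.sum_congr rfl
            intro j _
            rw [Finset.sum_comm]
        _ = ∑ i ∈ Icc a b, ∑ j ∈ Icc a₂ b₂, ∑ j' ∈ Icc a₂ b₂, ∑ i' ∈ Icc a b, g j j' i i' := by
            rw [Finset.sum_comm]
        _ = ∑ i ∈ Icc a b, ∑ j ∈ Icc a₂ b₂, ∑ i' ∈ Icc a b, ∑ j' ∈ Icc a₂ b₂, g j j' i i' := by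
            apply Finset.sum_congr rfl
            intro i _
            apply Finset.sum_congr rfl
            intro j _
            rw [Finset.sum_comm]
        _ = _ := by
            apply Finset.sum_congr rfl
            intro i _
            rw [Finset.sum_comm]
    rw [h2]
    apply Finset.sum_congr rfl
    intro i _
    apply Finset.sum_congr rfl
    intro i' _
    rw [← exW hr hc (n - 2 - i) (n - i')]
    rw [Finset.mul_sum]
    apply Finset.sum_congr rfl
    intro j _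
    rw [Finset.mul_sum]
  rw [hswap, ← Finset.sum_add_distrib]
  unfold Quad
  apply Finset.sum_congr rfl
  intro i _
  rw [← Finset.sum_add_distrib]
  apply Finset.sum_congr rfl
  intro i' _
  by_cases h0 : m i i' = 0
  · simp [h0]
  · have hle := hm i i' h0
    by_cases h1 : i' = i + 1
    · rw [if_pos h1]
      have hq : ¬ (n - i' ≤ n - 2 - i) := by omega
      unfold gg Pr.W3
      rw [if_neg hq, if_neg hq]
      ring
    · rw [if_neg h1]
      by_cases h2 : i' = i
      · subst h2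
        have hoc := ho i' h0
        unfold Pr.W3
        rw [hoc]
        ring
      · have hq : n - i' ≤ n - 2 - i := by omega
        unfold gg
        rw [if_pos hq, if_pos hq, add_zero]

end Pool.Agent.Helper41.LZ
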